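import Pool.Agent.H662.RC.TupV

set_option autoImplicit false

/-!
# Almost prime `k`-tuples in almost all residue classes, for all large moduli and all shifts

For an individual residue class modulo `q` the sieve of dimension `k` gives tuples whose members have
`≪ k / (1 - θ)` prime factors if `q = X ^ θ`. Here the number `B` of the prime factors depends on `k` only,
for all but few of the classes, for every modulus `q ≤ X ^ θ`, `θ < 1`, uniformly in the shifts `|a_i| ≤ X`.
For `k = 2` and `(a_1, a_2) = (0, -X)` this is a statement on sums `X = n + (X - n)` of two almost primes.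
-/

namespace Pool.Agent.Results.MP_8923e7_nt.AlmostPrimeTuplesInClasses

open Finset Filter

/-- the number of the distinct residue classes modulo `p` occupied by the `a_i` -/
def nu {k : ℕ} (a : Fin k → ℤ) (p : ℕ) : ℕ := (univ.image fun i => a i % (p : ℤ)).card

open Classical in
/-- The number of the integers `1 ≤ n ≤ X` with `n ≡ t mod q` such that every `n + a_i` is different from
`0`, has at most `B` prime factors (counted with multiplicity), and all of these are at least
`X ^ (1 / B)`. -/
noncomputable def almostPrimes {k : ℕ} (a : Fin k → ℤ) (B X q t : ℕ) : ℕ :=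
  ((Icc 1 X).filter (fun n : ℕ => n ≡ t [MOD q] ∧ ∀ i, (n : ℤ) + a i ≠ 0 ∧
    ((n : ℤ) + a i).natAbs.primeFactorsList.length ≤ B ∧
      ∀ p : ℕ, p.Prime → (p : ℤ) ∣ (n : ℤ) + a i → (X : ℝ) ^ (1 / (B : ℝ)) ≤ p)).card

open Classical in
/-- The number of the residue classes `t mod q` such that all `t + a_i` are prime to `q`. -/
noncomputable def admissible {k : ℕ} (a : Fin k → ℤ) (q : ℕ) : ℕ :=
  ((range q).filter (fun t : ℕ => ∀ i, IsCoprime ((t : ℤ) + a i) (q : ℤ))).card

open Classical in
/-- **Almost prime tuples in almost all residue classes.** For every `k` there is `B` such that for every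
`θ < 1` there is `κ > 0` such that for all large `X`, for all integers `a_1, …, a_k` with `|a_i| ≤ X` which
do not occupy all classes modulo any prime and for every modulus `1 ≤ q ≤ X ^ θ`: all of the `R(q)` residue
classes `t mod q` with all `t + a_i` prime to `q`, with at most `R(q) X ^ (-κ)` exceptions, contain at
least `(1 / 20) (X / R(q)) ∏_{p ≤ X} (1 - ν_p / p)` integers `n ≤ X` for which every `n + a_i` has at most
`B` prime factors, all of them at least `X ^ (1 / B)`. -/
theorem result (k : ℕ) : ∃ B : ℕ, 1 ≤ B ∧ ∀ θ : ℝ, θ < 1 → ∃ κ : ℝ, 0 < κ ∧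
    ∀ᶠ X : ℕ in atTop, ∀ a : Fin k → ℤ, (∀ i, |a i| ≤ X) → (∀ p : ℕ, p.Prime → nu a p < p) →
      ∀ q : ℕ, 1 ≤ q → (q : ℝ) ≤ (X : ℝ) ^ θ →
      (((range q).filter (fun t : ℕ => (∀ i, IsCoprime ((t : ℤ) + a i) (q : ℤ)) ∧
        (almostPrimes a B X q t : ℝ) < 1 / 20 * ((X : ℝ) / (admissible a q : ℝ)) *
          ∏ p ∈ (range (X + 1)).filter Nat.Prime, (1 - (nu a p : ℝ) / p))).card : ℝ) ≤
      (admissible a q : ℝ) * (X : ℝ) ^ (-κ) := by
  obtain ⟨B, hB, H⟩ := Pool.Agent.H662.RC.tupU_main k
  refine ⟨B, hB, fun θ hθ => ?_⟩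
  obtain ⟨κ, hκ, H3⟩ := H θ hθ
  refine ⟨κ, hκ, ?_⟩
  filter_upwards [H3] with X hX a haX hadm q hq hqX
  have hadq : admissible a q = Pool.Agent.H662.RC.clsG (Pool.Agent.H662.RC.GT a) q := by
    unfold admissible Pool.Agent.H662.RC.clsG
    congr 1
    apply filter_congr
    intro t _
    rw [Pool.Agent.H662.RC.GT_eval, Nat.coprime_iff_gcd_eq_one]
    constructor
    · intro h
      have h3 : IsCoprime (∏ i, ((t : ℤ) + a i)) (q : ℤ) := IsCoprime.prod_left fun i _ => h i
      rw [Int.isCoprime_iff_gcd_eq_one] at h3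
      exact h3
    · intro h i
      have h3 : IsCoprime (∏ i, ((t : ℤ) + a i)) (q : ℤ) := by
        rw [Int.isCoprime_iff_gcd_eq_one]
        exact h
      exact IsCoprime.of_isCoprime_of_dvd_left h3
        (dvd_prod_of_mem (fun i => (t : ℤ) + a i) (mem_univ i))
  have hlo : Pool.Agent.Y882.SI.lo (Pool.Agent.H662.RC.GT a) X =
      ∏ p ∈ (range (X + 1)).filter Nat.Prime, (1 - (nu a p : ℝ) / p) := by
    unfold Pool.Agent.Y882.SI.lo
    have hS : (Icc 1 X).filter Nat.Prime = (range (X + 1)).filter Nat.Prime := by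
      ext p
      rw [mem_filter, mem_filter, mem_Icc, mem_range]
      constructor
      · rintro ⟨⟨_, h2⟩, h3⟩
        exact ⟨by omega, h3⟩
      · rintro ⟨h2, h3⟩
        exact ⟨⟨h3.one_le, by omega⟩, h3⟩
    rw [hS]
    apply prod_congr rfl
    intro p hp
    rw [Pool.Agent.H662.RC.ro_GT a p (mem_filter.1 hp).2]
    rfl
  have h := hX a haX hadm q hq hqX
  have e : ∀ u v w : ℝ, 1 / 20 * (u * v / w) = 1 / 20 * (u / w) * v := fun u v w => by ring
  rw [e, hlo, ← hadq] at h
  exact h

end Pool.Agent.Results.MP_8923e7_nt.AlmostPrimeTuplesInClasses
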