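import Mathlib
import Pool.Agent.H35_TL.Main

/-!
# Two of any three linear forms, or almost all admissible quintuples

At least one of the following holds.

(i) For all distinct nonzero integers `a_1, a_2, a_3` there is `C` such that for all large `N` and all
positions `b_1, b_2, b_3` of the size of `N` two of the three linear forms `a_i n + b_i` are, after a change
of their constant terms by at most `C`, simultaneously prime for at least `N / (log N) ^ C` of the `n ≤ N`.
(For four forms instead of three this is known from the starting files. The slope `-1` is allowed: for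
`a_1 = 1`, `a_2 = -1` the equation is that of Goldbach. For slopes `≤ -2` there is no position, so nothing is
said about them.)

(ii) The prime quintuples conjecture is true with very few exceptions, and large parts of the prime
`k`-tuples conjecture are true for all `k`. There are `C` and `δ > 0` such that for every `U` there are
arbitrarily large `N` such that for all sets `V_1, ..., V_5` of `L` integers in `[0, U]` all but at most
`C L ^ (5 - δ)` of the admissible quintuples in `V_1 × ... × V_5` are such that `n + x_1, ..., n + x_5` are all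
prime for at least `N / (log N) ^ C` of the `n ≤ N`. And for all `k` and `ε > 0`, in every large finite set `V`
without an obstruction at the small primes at least `((5 / 6) ^ k - ε) |V| ^ (k + 1)` of the `(k + 1)`-tuples
have this property.

Proof: the coloured Maynard-Tao theorem with the constant `18 / 5`, uniform in constant terms of the size of
the variable (`Pool.Agent.Y827.RO.lamRD`, starting files), is applied to `3 T` classes of forms
`a_i n + b_i + x`, `x ∈ X_1, ..., X_T`, with `K` elements in every `X_j`. At least `5 T / 6` of the `3 T`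
classes are hit. If (i) fails, then there are positions at which no two classes with different slopes are
hit, so all the hit classes have the same slope, and they are all `T` classes of this slope if `T = 5`,
since `(18 / 5) 4 < 15`. Then Erdős's theorem on complete 5-partite hypergraphs is used.
-/

set_option autoImplicit false

namespace Pool.Agent.Results.MP_8923e7_nt.ThreeFormsOrQuintuples

open Filter

/-- the number of the `1 ≤ n ≤ N` for which `a n + b` and `a' n + b'` are both (positive) primes -/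
noncomputable def pairs (a b a' b' : ℤ) (N : ℕ) : ℕ :=
  {n : ℕ | 1 ≤ n ∧ n ≤ N ∧ (a * (n : ℤ) + b).toNat.Prime ∧ (a' * (n : ℤ) + b').toNat.Prime}.ncard

/-- the number of the `1 ≤ n ≤ N` for which all the numbers `n + x i` are primes -/
noncomputable def count {k : ℕ} (x : Fin k → ℕ) (N : ℕ) : ℕ :=
  {n : ℕ | 1 ≤ n ∧ n ≤ N ∧ ∀ i, (n + x i).Prime}.ncard

/-- no prime divides one of the numbers `n + x i` for every `n` -/
def Admissible {k : ℕ} (x : Fin k → ℕ) : Prop :=
  ∀ p : ℕ, p.Prime → ∃ r : ℕ, ∀ i, ¬ p ∣ r + x i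

/-- the constant terms `b i` are at most `9 N / 10` in absolute value, and the three forms are of the size of
`N`, at least `N / 24`, on the interval `[N / 16, N / 2]` (this is possible only for slopes `a i ≥ -1`) -/
def Position (a b : Fin 3 → ℤ) (N : ℕ) : Prop :=
  ∀ i, 10 * |b i| ≤ 9 * (N : ℤ) ∧
    ∀ t : ℝ, (N : ℝ) / 16 ≤ t → t ≤ N / 2 → (N : ℝ) / 24 ≤ a i * t + b i

/-- For all large `N` and all positions `b` two of the three forms `a i * n + b i` are simultaneously prime for
at least `N / (log N) ^ C` of the `n ≤ N`, after a change of `b i` by at most `C`. -/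
def TwoOfThree (a : Fin 3 → ℤ) : Prop :=
  ∃ C : ℕ, ∀ᶠ N : ℕ in atTop, ∀ b : Fin 3 → ℤ, Position a b N →
    ∃ i j, i ≠ j ∧ ∃ e e' : ℤ, |e| ≤ C ∧ |e'| ≤ C ∧
      (N : ℝ) / Real.log N ^ C ≤ (pairs (a i) (b i + e) (a j) (b j + e') N : ℝ)

theorem result :
    (∀ a : Fin 3 → ℤ, (∀ i, a i ≠ 0) → Function.Injective a → TwoOfThree a) ∨
    ((∃ (C : ℕ) (δ : ℝ), 0 < δ ∧ ∀ U : ℕ, ∃ᶠ N : ℕ in atTop, ∀ (L : ℕ) (V : Fin 5 → Finset ℕ), 1 ≤ L →
        (∀ i, (V i).card = L ∧ ∀ x ∈ V i, x ≤ U) →
        ({x : Fin 5 → ℕ | (∀ i, x i ∈ V i) ∧ Function.Injective x ∧ Admissible x ∧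
          (count x N : ℝ) < N / Real.log N ^ C}.ncard : ℝ) ≤ C * (L : ℝ) ^ (5 - δ)) ∧
      ∀ (k : ℕ) (ε : ℝ), 0 < ε → ∃ z n₀ C : ℕ, ∀ U : ℕ, ∃ᶠ N : ℕ in atTop, ∀ V : Finset ℕ,
        (∀ x ∈ V, x ≤ U) → n₀ ≤ V.card →
        (∀ p : ℕ, p.Prime → p ≤ z → ∃ r : ℕ, ∀ x ∈ V, ¬ p ∣ r + x) →
        ((5 / 6) ^ k - ε) * (V.card : ℝ) ^ (k + 1) ≤
          ({x : Fin (k + 1) → ℕ | (∀ i, x i ∈ V) ∧ Function.Injective x ∧
            N / Real.log N ^ C ≤ (count x N : ℝ)}.ncard : ℝ)) := by
  classical
  have hpair : ∀ (a b a' b' : ℤ) (N : ℕ), pairs a b a' b' N = Pool.Agent.H35_TL.pairN a b a' b' N := by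
    intro a b a' b' N
    unfold pairs Pool.Agent.H35_TL.pairN
    rw [← Set.ncard_coe_finset]
    congr 1
    ext n
    simp only [Finset.coe_filter, Finset.mem_Icc, Set.mem_setOf_eq, and_assoc]
  have hcount : ∀ {k : ℕ} (x : Fin k → ℕ) (N : ℕ),
      count x N = Pool.Agent.H35_TL.goodN (Finset.univ.image x) N := by
    intro k x N
    unfold count Pool.Agent.H35_TL.goodN
    rw [← Set.ncard_coe_finset]
    congr 1
    ext n
    simp only [Finset.coe_filter, Finset.mem_Icc, Set.mem_setOf_eq, Finset.mem_image,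
      Finset.mem_univ, true_and, forall_exists_index, forall_apply_eq_imp_iff, and_assoc]
  have hTT : ∀ a : Fin 3 → ℤ, Pool.Agent.H35_TL.TwoOfThree a → TwoOfThree a := by
    rintro a ⟨C, hC⟩
    refine ⟨C, hC.mono fun N hN b hb => ?_⟩
    obtain ⟨i, j, hij, e, e', he, he', h⟩ := hN b hb
    refine ⟨i, j, hij, e, e', he, he', ?_⟩
    rw [hpair]
    exact h
  have hloc : ∀ (p r : ℕ) (x : ℕ), ¬ p ∣ r + x → ¬ (p : ℤ) ∣ (r : ℤ) + x := by
    intro p r x h h'
    exact h (by exact_mod_cast h')
  by_cases hall : ∀ a : Fin 3 → ℤ, (∀ i, a i ≠ 0) → Function.Injective a →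
      Pool.Agent.H35_TL.TwoOfThree a
  · left
    exact fun a ha hinj => hTT a (hall a ha hinj)
  right
  push Not at hall
  obtain ⟨a, ha, hinj, hno⟩ := hall
  constructor
  · obtain ⟨C, z, δ, hδ, h⟩ := Pool.Agent.H35_TL.quint a ha hinj hno
    refine ⟨C, δ, hδ, fun U => (h U).mono ?_⟩
    rintro N ⟨hN3, hN⟩ L V hL hV
    refine le_trans ?_ (hN L V hL hV)
    rw [Nat.cast_le, ← Set.ncard_coe_finset]
    apply Set.ncard_le_ncard _ (Finset.finite_toSet _)
    rintro x ⟨h1, h2, h3, h4⟩
    rw [Finset.mem_coe, Pool.Agent.H35_TL.badT, Finset.mem_filter, Fintype.mem_piFinset]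
    refine ⟨h1, h2, fun p hp _ => ?_, ?_⟩
    · obtain ⟨r, hr⟩ := h3 p hp
      exact ⟨r, fun i => hloc p r _ (hr i)⟩
    · rw [hcount] at h4
      exact not_le.2 h4
  · intro k ε hε
    obtain ⟨z, n₀, C, h⟩ := Pool.Agent.H35_TL.prop a ha hinj hno k ε hε
    refine ⟨z, n₀, C, fun U => (h U).mono ?_⟩
    intro N hN V hVU hVn hVl
    refine (hN V hVU hVn (fun p hp hpz => ?_)).trans ?_
    · obtain ⟨r, hr⟩ := hVl p hp hpz
      exact ⟨r, fun x hx => hloc p r _ (hr x hx)⟩
    · rw [Nat.cast_le, ← Set.ncard_coe_finset]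
      apply Set.ncard_le_ncard
      · intro x hx
        rw [Finset.mem_coe, Finset.mem_filter, Fintype.mem_piFinset] at hx
        refine ⟨hx.1, hx.2.1, ?_⟩
        rw [hcount]
        exact hx.2.2
      · exact (Finset.finite_toSet (Fintype.piFinset (fun _ : Fin (k + 1) => V))).subset
          fun x hx => Finset.mem_coe.2 (Fintype.mem_piFinset.2 hx.1)

end Pool.Agent.Results.MP_8923e7_nt.ThreeFormsOrQuintuples
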