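import Pool.Agent.Z296.AP.FamS

/-!
# A positive proportion of the tuples of shifts is prime, with almost prime companions

Let `V` be a large finite set of shifts which misses a residue class modulo every prime `p ≤ z`. For all but
`ε |V| ^ k` of the `k`-tuples `c` of elements of `V` (the companions) and at least `(δ' - ε) |V| ^ (l + 1)` of
the `(l + 1)`-tuples `a` of distinct elements of `V` (`δ' = (5 / 18) ^ l`, and `1 / 3` for pairs) there are
infinitely many `n` such that all the numbers `n + a_0, ..., n + a_l` are prime and every one of the numbers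
`n + c_1, ..., n + c_k` is a prime or a product of two primes. The `n` may be taken in a progression modulo
`q`, and for the `n ≤ x` the statement is uniform in `V ⊆ [0, x / (4 q)]`.

Proof: the coloured Maynard-Tao theorem with almost primes in all the classes (`Pool.Agent.Z296.AP.thmP`):
for `T + k` classes of `K` linear forms and many `n`, every class contains an almost prime value and at
least `5 T / 18` of the first `T` classes contain a prime. Erdos's box lemma gives, for almost all companions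
and almost all `T`-tuples, a lower bound for the complex of the subtuples which are prime simultaneously with
these companions almost prime, and the number of its faces is estimated as in the case without
companions (`Pool.Agent.Y827.LS.hcountL`).
-/

set_option autoImplicit false

namespace Pool.Agent.Results.MP_8923e7_nt.TuplesWithCompanions

open Finset Filter

/-- the proportion: `1 / 3` for pairs, `(5 / 18) ^ l` for `(l + 1)`-tuples -/
noncomputable def proportion (l : ℕ) : ℝ := if l = 1 then 1 / 3 else (5 / 18) ^ l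

/-- `m` is a prime `> y` or the product of two primes `> y` -/
def P2 (y : ℝ) (m : ℕ) : Prop :=
  ∃ p : ℕ, p.Prime ∧ y < p ∧ (m = p ∨ ∃ r : ℕ, r.Prime ∧ y < r ∧ m = p * r)

/-- the `n ≡ b` modulo `q` for which all the `n + a i` are prime and every `n + c j` is a prime `> y` or the
product of two primes `> y` -/
def Points {l k : ℕ} (q b : ℕ) (y : ℝ) (a : Fin l → ℕ) (c : Fin k → ℕ) : Set ℕ :=
  {n : ℕ | n ≡ b [MOD q] ∧ (∀ i, (n + a i).Prime) ∧ ∀ j, P2 y (n + c j)}

/-- there are at least `x / (log x) ^ B` such `n ≤ x`, with `y = x ^ δ` -/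
def Many {l k : ℕ} (q b : ℕ) (δ : ℝ) (B x : ℕ) (a : Fin l → ℕ) (c : Fin k → ℕ) : Prop :=
  (x : ℝ) / (Real.log x) ^ B ≤ ({n : ℕ | n ≤ x ∧ n ∈ Points q b ((x : ℝ) ^ δ) a c}.ncard : ℝ)

theorem card_img_le {n : ℕ} {φ : ℕ → ℤ × ℤ} (V : Finset ℕ)
    (P : (Fin n → ℕ) → Prop) (P' : (Fin n → ℤ × ℤ) → Prop) [DecidablePred P] [DecidablePred P']
    (h : ∀ a : Fin n → ℕ, (∀ i, a i ∈ V) → P' (fun i => φ (a i)) → P a) :
    ((Fintype.piFinset (fun _ : Fin n => V.image φ)).filter P').card ≤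
      ((Fintype.piFinset (fun _ : Fin n => V)).filter P).card := by
  classical
  refine (card_le_card (t := ((Fintype.piFinset (fun _ : Fin n => V)).filter P).image
    (fun (a : Fin n → ℕ) (i : Fin n) => φ (a i))) ?_).trans card_image_le
  intro x hx
  rw [mem_filter, Fintype.mem_piFinset] at hx
  have h1 : ∀ i, ∃ v ∈ V, φ v = x i := fun i => mem_image.1 (hx.1 i)
  choose a ha1 ha2 using h1
  have h2 : (fun i => φ (a i)) = x := funext ha2
  rw [mem_image]
  refine ⟨a, ?_, h2⟩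
  rw [mem_filter, Fintype.mem_piFinset]
  exact ⟨ha1, h a ha1 (by rw [h2]; exact hx.2)⟩

theorem card_le_img {n : ℕ} {φ : ℕ → ℤ × ℤ} (hφ : Function.Injective φ) (V : Finset ℕ)
    (P : (Fin n → ℕ) → Prop) (P' : (Fin n → ℤ × ℤ) → Prop) [DecidablePred P] [DecidablePred P']
    (h : ∀ a : Fin n → ℕ, (∀ i, a i ∈ V) → P a → P' (fun i => φ (a i))) :
    ((Fintype.piFinset (fun _ : Fin n => V)).filter P).card ≤
      ((Fintype.piFinset (fun _ : Fin n => V.image φ)).filter P').card := by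
  classical
  apply card_le_card_of_injOn (fun (a : Fin n → ℕ) (i : Fin n) => φ (a i))
  · intro a ha
    rw [mem_coe, mem_filter, Fintype.mem_piFinset] at ha ⊢
    exact ⟨fun i => mem_image_of_mem _ (ha.1 i), h a ha.1 ha.2⟩
  · intro a _ a' _ he
    funext i
    exact hφ (congrFun he i)

/-- the passage to the progression -/
theorem many_of {l k q b N N₁ B : ℕ} {δ : ℝ} (hδ : 0 < δ) (hq : 1 ≤ q) (a : Fin (l + 1) → ℕ)
    (c : Fin k → ℕ) (hN1 : q * N₁ + b % q ≤ N) (hN2 : N ≤ 2 * q * N₁) (hl : (2 * q : ℕ) ≤ Real.log N)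
    (hl1 : 1 ≤ Real.log N₁) (hNN : (N : ℝ) ^ ((1 : ℝ) / 2) ≤ N₁)
    (h : (N₁ : ℝ) / (Real.log N₁) ^ B ≤ (Pool.Agent.Z296.AP.cntS δ
      (univ.image (fun i => ((q : ℤ), (((b % q : ℕ) : ℤ) + (a i : ℤ)))))
      (fun j => ((q : ℤ), (((b % q : ℕ) : ℤ) + (c j : ℤ)))) N₁ : ℝ)) :
    Many q b (δ / 2) (B + 1) N a c := by
  classical
  have hq0 : (0 : ℝ) < q := by exact_mod_cast hq
  have hN₁ : N₁ ≤ N := by
    have h1 : N₁ ≤ q * N₁ := Nat.le_mul_of_pos_left _ hq
    omega
  have hN₁0 : 0 < N₁ := by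
    rcases Nat.eq_zero_or_pos N₁ with h0 | h0
    · rw [h0, Nat.cast_zero, Real.log_zero] at hl1
      linarith
    · exact h0
  have hN₁r : (0 : ℝ) < N₁ := by exact_mod_cast hN₁0
  have hNr : (0 : ℝ) < N := by exact_mod_cast (by omega : 0 < N)
  have hll : Real.log N₁ ≤ Real.log N := Real.log_le_log hN₁r (by exact_mod_cast hN₁)
  have hlN : 0 < Real.log N := by linarith
  have h1 : (N : ℝ) / (Real.log N) ^ (B + 1) ≤ (N₁ : ℝ) / (Real.log N₁) ^ B := by
    have e1 : (N : ℝ) ≤ (2 * q) * N₁ := by exact_mod_cast hN2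
    have e2 : ((2 * q : ℕ) : ℝ) = 2 * q := by push_cast; ring
    rw [e2] at hl
    calc (N : ℝ) / (Real.log N) ^ (B + 1) ≤ ((2 * q) * N₁) / (Real.log N) ^ (B + 1) :=
          div_le_div_of_nonneg_right e1 (by positivity)
      _ ≤ (Real.log N * N₁) / (Real.log N) ^ (B + 1) :=
          div_le_div_of_nonneg_right (mul_le_mul_of_nonneg_right hl hN₁r.le) (by positivity)
      _ = N₁ / (Real.log N) ^ B := by
          rw [pow_succ]
          field_simp
      _ ≤ N₁ / (Real.log N₁) ^ B := by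
          apply div_le_div_of_nonneg_left hN₁r.le (by positivity)
          exact pow_le_pow_left₀ (by linarith) hll _
  refine h1.trans (h.trans ?_)
  rw [Nat.cast_le]
  unfold Pool.Agent.Z296.AP.cntS
  rw [← Set.ncard_coe_finset]
  refine Set.ncard_le_ncard_of_injOn (fun m : ℕ => q * m + b % q) ?_ ?_ ?_
  · intro m hm
    rw [mem_coe, mem_filter, mem_Icc] at hm
    obtain ⟨⟨hm1, hm2⟩, hm3, hm4⟩ := hm
    have hmN : q * m + b % q ≤ N := by
      have := Nat.mul_le_mul_left q hm2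
      omega
    have key : ∀ v : ℕ, ((q : ℤ) * (m : ℤ) + (((b % q : ℕ) : ℤ) + (v : ℤ))) =
        ((q * m + b % q + v : ℕ) : ℤ) := by
      intro v
      push_cast
      ring
    refine ⟨hmN, ?_, ?_, ?_⟩
    · show q * m + b % q ≡ b [MOD q]
      unfold Nat.ModEq
      rw [Nat.mul_add_mod, Nat.mod_mod]
    · intro i
      have h2 := hm3 _ (mem_image_of_mem _ (mem_univ i))
      simp only at h2
      rw [key, Int.toNat_natCast] at h2
      exact h2
    · intro j
      obtain ⟨p, h2, h3, h4⟩ := hm4 j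
      simp only at h4
      rw [key] at h4
      have h5 : (N : ℝ) ^ (δ / 2) ≤ (N₁ : ℝ) ^ δ := by
        rw [show δ / 2 = (1 : ℝ) / 2 * δ from by ring, Real.rpow_mul hNr.le]
        exact Real.rpow_le_rpow (by positivity) hNN hδ.le
      refine ⟨p, h2, lt_of_le_of_lt h5 h3, ?_⟩
      rcases h4 with h4 | ⟨r, h6, h7, h8⟩
      · left
        exact_mod_cast h4
      · right
        exact ⟨r, h6, lt_of_le_of_lt h5 h7, by exact_mod_cast h8⟩
  · intro m _ m' _ he
    simp only at he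
    have h2 : q * m = q * m' := by omega
    exact Nat.eq_of_mul_eq_mul_left hq h2
  · apply (Finset.range (N + 1)).finite_toSet.subset
    rintro n ⟨hn, -⟩
    rw [mem_coe, mem_range]
    omega

open Classical in
/-- the uniform statement, with finsets -/
theorem unif (l k : ℕ) (ε : ℝ) (hε : 0 < ε) : ∃ (z n₀ B : ℕ) (δ : ℝ), 0 < δ ∧
    ∀ q : ℕ, 1 ≤ q → ∀ᶠ x : ℕ in atTop, ∀ (b : ℕ) (V : Finset ℕ), (∀ v ∈ V, 4 * q * v ≤ x) →
      (∀ v ∈ V, Nat.Coprime (b + v) q) →
      (∀ p : ℕ, p ≤ z → p.Prime → ¬ p ∣ q → ∃ r : ℕ, ∀ v ∈ V, ¬ v ≡ r [MOD p]) → n₀ ≤ V.card →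
      (((Fintype.piFinset (fun _ : Fin k => V)).filter (fun c =>
        (((Fintype.piFinset (fun _ : Fin (l + 1) => V)).filter (fun a => Function.Injective a ∧
          Many q b δ B x a c)).card : ℝ) <
            (proportion l - ε) * (V.card : ℝ) ^ (l + 1))).card : ℝ) ≤ ε * (V.card : ℝ) ^ k := by
  obtain ⟨z, n₀, B, δ, hδ, H⟩ := Pool.Agent.Z296.AP.famS_unif l k ε hε
  refine ⟨z, n₀, B + 1, δ / 2, by linarith, ?_⟩
  intro q hq
  have hq0 : (0 : ℝ) < q := by exact_mod_cast hq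
  -- the scale
  have ht : Tendsto (fun x : ℕ => x / q - 1) atTop atTop := by
    refine tendsto_atTop.2 (fun m => ?_)
    filter_upwards [eventually_ge_atTop (q * (m + 1))] with x hx
    have : m + 1 ≤ x / q := by
      rw [Nat.le_div_iff_mul_le hq]
      linarith
    omega
  have hroot : ∀ᶠ x : ℕ in atTop, (x : ℝ) ^ ((1 : ℝ) / 2) ≤ ((x / q - 1 : ℕ) : ℝ) := by
    have h1 := Pool.Agent.W25.UN.ev_poly (2 * q : ℝ) 0 ((1 : ℝ) / 2) 1 (by norm_num)
    filter_upwards [h1, eventually_ge_atTop (4 * q)] with x hx hxq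
    rw [pow_zero, mul_one, Real.rpow_one] at hx
    have h2 : x ≤ 2 * q * (x / q - 1) := by
      have h3 : x < q * (x / q + 1) := Nat.lt_mul_div_succ x hq
      have h4 : 4 ≤ x / q := by
        rw [Nat.le_div_iff_mul_le hq]
        exact hxq
      have h5 : x / q + 1 ≤ 2 * (x / q - 1) := by omega
      calc x ≤ q * (x / q + 1) := h3.le
        _ ≤ q * (2 * (x / q - 1)) := Nat.mul_le_mul_left _ h5
        _ = 2 * q * (x / q - 1) := by ring
    have h6 : (x : ℝ) ≤ 2 * q * ((x / q - 1 : ℕ) : ℝ) := by exact_mod_cast h2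
    have h7 : (2 * q : ℝ) * (x : ℝ) ^ ((1 : ℝ) / 2) ≤ 2 * q * ((x / q - 1 : ℕ) : ℝ) := hx.trans h6
    exact le_of_mul_le_mul_left h7 (by positivity)
  filter_upwards [ht.eventually (H q), hroot, ht.eventually (Pool.Agent.W25.UN.ev_log 1),
    Pool.Agent.W25.UN.ev_log ((2 * q : ℕ) : ℝ), eventually_ge_atTop (8 * q * (q + 2))]
    with x hx hxr hxl1 hxl hx8 b V hVx hcop hloc hcard
  obtain ⟨N₁, hN₁⟩ : ∃ N₁ : ℕ, N₁ = x / q - 1 := ⟨_, rfl⟩
  rw [← hN₁] at hx hxr hxl1
  have hdiv : 8 * (q + 2) ≤ x / q := by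
    rw [Nat.le_div_iff_mul_le hq]
    calc 8 * (q + 2) * q = 8 * q * (q + 2) := by ring
      _ ≤ x := hx8
  have hx1 : q * N₁ + b % q ≤ x := by
    have h1 : b % q < q := Nat.mod_lt _ hq
    have h2 : q * (x / q) ≤ x := Nat.mul_div_le x q
    have h3 : q * N₁ + q = q * (x / q) := by
      rw [hN₁, ← Nat.mul_succ]
      congr 1
      omega
    omega
  have hx2 : x ≤ 2 * q * N₁ := by
    have h3 : x < q * (x / q + 1) := Nat.lt_mul_div_succ x hq
    have h5 : x / q + 1 ≤ 2 * N₁ := by omega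
    calc x ≤ q * (x / q + 1) := h3.le
      _ ≤ q * (2 * N₁) := Nat.mul_le_mul_left _ h5
      _ = 2 * q * N₁ := by ring
  obtain ⟨φ, hφ⟩ : ∃ φ : ℕ → ℤ × ℤ, φ = fun v : ℕ => ((q : ℤ), (((b % q : ℕ) : ℤ) + (v : ℤ))) := ⟨_, rfl⟩
  have hφi : Function.Injective φ := by
    intro v v' h
    rw [hφ] at h
    simp only [Prod.mk.injEq] at h
    have := h.2
    omega
  have hcardV : (V.image φ).card = V.card := card_image_of_injective V hφi
  have hmod : ∀ v : ℕ, ((b % q : ℕ) : ℤ) + (v : ℤ) = ((b % q + v : ℕ) : ℤ) := fun v => by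
    push_cast; ring
  have hcop' : ∀ v ∈ V, Nat.Coprime (b % q + v) q := by
    intro v hv
    have h1 := hcop v hv
    unfold Nat.Coprime at h1 ⊢
    have h2 : b % q + v ≡ b + v [MOD q] := (Nat.mod_modEq b q).add_right v
    rw [h2.gcd_eq]
    exact h1
  have hAd : ∀ f ∈ V.image φ, Pool.Agent.Y827.GS.Adf q N₁ f := by
    intro f hf
    obtain ⟨v, hv, rfl⟩ := mem_image.1 hf
    have h1 := hVx v hv
    have h2 : b % q < q := Nat.mod_lt _ hq
    have h3 : 4 * v ≤ x / q := by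
      rw [Nat.le_div_iff_mul_le hq]
      calc 4 * v * q = 4 * q * v := by ring
        _ ≤ x := h1
    have h4 : b % q + v ≤ N₁ := by omega
    rw [hφ]
    refine ⟨?_, ?_, ?_, ?_, ?_⟩
    · show (q : ℤ) ≠ 0
      exact_mod_cast (by omega : q ≠ 0)
    · show |(q : ℤ)| ≤ q
      rw [Nat.abs_cast]
    · show |((b % q : ℕ) : ℤ) + (v : ℤ)| ≤ N₁
      rw [hmod, Nat.abs_cast]
      exact_mod_cast h4
    · show IsCoprime (q : ℤ) (((b % q : ℕ) : ℤ) + (v : ℤ))
      rw [hmod]
      exact Nat.isCoprime_iff_coprime.2 (hcop' v hv).symm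
    · intro t ht1 ht2
      show (N₁ : ℝ) / 24 ≤ ((q : ℤ) : ℝ) * t + ((((b % q : ℕ) : ℤ) + (v : ℤ) : ℤ) : ℝ)
      rw [hmod, Int.cast_natCast q, Int.cast_natCast (b % q + v)]
      have h5 : (0 : ℝ) ≤ N₁ := Nat.cast_nonneg _
      have h6 : (0 : ℝ) ≤ ((b % q + v : ℕ) : ℝ) := Nat.cast_nonneg _
      have h8 : t ≤ q * t := le_mul_of_one_le_left (by linarith) (by exact_mod_cast hq)
      linarith
  have hlocV : ∀ p : ℕ, p.Prime → p ≤ z → ∃ r : ℤ, ∀ f ∈ V.image φ, ¬ (p : ℤ) ∣ f.1 * r + f.2 := by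
    intro p hp hpz
    by_cases hpq : p ∣ q
    · refine ⟨0, fun f hf => ?_⟩
      obtain ⟨v, hv, rfl⟩ := mem_image.1 hf
      rw [hφ]
      simp only
      rw [mul_zero, zero_add, hmod]
      intro h
      have h1 : p ∣ b % q + v := by exact_mod_cast h
      have h2 : p ∣ Nat.gcd (b % q + v) q := Nat.dvd_gcd h1 hpq
      rw [hcop' v hv] at h2
      exact hp.one_lt.ne' (Nat.dvd_one.1 h2)
    · obtain ⟨r, hr⟩ := hloc p hpz hp hpq
      have h1 : IsCoprime (q : ℤ) (p : ℤ) :=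
        Nat.isCoprime_iff_coprime.2 ((Nat.Prime.coprime_iff_not_dvd hp).2 hpq).symm
      obtain ⟨u, w, huw⟩ := h1
      refine ⟨u * (-(r : ℤ) - ((b % q : ℕ) : ℤ)), fun f hf => ?_⟩
      obtain ⟨v, hv, rfl⟩ := mem_image.1 hf
      rw [hφ]
      simp only
      intro h
      apply hr v hv
      have h2 : (q : ℤ) * (u * (-(r : ℤ) - ((b % q : ℕ) : ℤ))) + (((b % q : ℕ) : ℤ) + (v : ℤ)) =
          ((v : ℤ) - r) + p * (w * (r + ((b % q : ℕ) : ℤ))) := by
        linear_combination (-(r : ℤ) - ((b % q : ℕ) : ℤ)) * huw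
      rw [h2] at h
      have h3 : (p : ℤ) ∣ (v : ℤ) - r := (dvd_add_left (dvd_mul_right _ _)).1 h
      exact ((Nat.modEq_iff_dvd).2 h3).symm
  have hmain := hx (V.image φ) (by rw [hcardV]; exact hcard) hAd hlocV
  rw [hcardV] at hmain
  refine le_trans ?_ hmain
  rw [Nat.cast_le]
  apply card_le_img hφi V
  intro c hc hbad
  refine lt_of_le_of_lt ?_ (lt_of_lt_of_eq hbad ?_)
  · rw [Nat.cast_le]
    apply card_img_le V
    rintro a ha ⟨hinj, hmany⟩
    refine ⟨fun i j h => hinj (by simp only [h]), ?_⟩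
    apply many_of hδ hq a c hx1 hx2 hxl hxl1 hxr
    rw [hφ] at hmany
    convert hmany
  · rfl

/-- there are infinitely many such `n`; for arbitrarily large `x` at least `x / (log x) ^ B` of the `n ≤ x`,
with prime factors larger than `x ^ δ` -/
def Often {l k : ℕ} (q b : ℕ) (δ : ℝ) (B : ℕ) (a : Fin l → ℕ) (c : Fin k → ℕ) : Prop :=
  (Points q b 1 a c).Infinite ∧ ∃ᶠ x : ℕ in atTop, Many q b δ B x a c

theorem often_of {l k : ℕ} {q b : ℕ} {δ : ℝ} (hδ : 0 < δ) {B : ℕ} {a : Fin l → ℕ} {c : Fin k → ℕ}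
    (h : ∃ᶠ x : ℕ in atTop, Many q b δ B x a c) : Often q b δ B a c := by
  refine ⟨?_, h⟩
  intro hfin
  have h1 := Pool.Agent.W25.UN.ev_poly (((Points q b 1 a c).ncard : ℝ) + 1) B 0 1 one_pos
  obtain ⟨x, hx1, hx2, hx3, hx4⟩ := (h.and_eventually (h1.and
    ((Pool.Agent.W25.UN.ev_log 1).and (eventually_ge_atTop 1)))).exists
  have hx0 : (0 : ℝ) < x := by exact_mod_cast hx4
  have hxr : (1 : ℝ) ≤ x := by exact_mod_cast hx4
  have hl : 0 < Real.log x := by linarith
  rw [Real.rpow_zero, mul_one, Real.rpow_one] at hx2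
  have h2 : ((Points q b 1 a c).ncard : ℝ) + 1 ≤ (x : ℝ) / (Real.log x) ^ B := by
    rw [le_div_iff₀ (by positivity)]
    exact hx2
  have h3 : {n : ℕ | n ≤ x ∧ n ∈ Points q b ((x : ℝ) ^ δ) a c}.ncard ≤
      (Points q b 1 a c).ncard := by
    apply Set.ncard_le_ncard _ hfin
    rintro n ⟨-, h4, h5, h6⟩
    refine ⟨h4, h5, fun j => ?_⟩
    obtain ⟨p, h6, h7, h8⟩ := h6 j
    have h9 : (1 : ℝ) ≤ (x : ℝ) ^ δ := Real.one_le_rpow hxr hδ.le
    refine ⟨p, h6, lt_of_le_of_lt h9 h7, ?_⟩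
    rcases h8 with h8 | ⟨r, h10, h11, h12⟩
    · exact Or.inl h8
    · exact Or.inr ⟨r, h10, lt_of_le_of_lt h9 h11, h12⟩
  have h4 : ({n : ℕ | n ≤ x ∧ n ∈ Points q b ((x : ℝ) ^ δ) a c}.ncard : ℝ) ≤
      (Points q b 1 a c).ncard := by exact_mod_cast h3
  unfold Many at hx1
  linarith

/-- the number of the `k`-tuples `c` of elements of `V` such that at least `(proportion l - ε) |V| ^ (l + 1)`
of the `(l + 1)`-tuples `a` of distinct elements of `V` have the property `P a c` -/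
noncomputable def companions (l k : ℕ) (ε : ℝ) (V : Finset ℕ)
    (P : (Fin (l + 1) → ℕ) → (Fin k → ℕ) → Prop) : ℕ :=
  {c : Fin k → ℕ | (∀ j, c j ∈ V) ∧ (proportion l - ε) * (V.card : ℝ) ^ (l + 1) ≤
    ({a : Fin (l + 1) → ℕ | (∀ i, a i ∈ V) ∧ Function.Injective a ∧ P a c}.ncard : ℝ)}.ncard

open Classical in
theorem companions_ge (l k : ℕ) (ε : ℝ) (V : Finset ℕ)
    (P : (Fin (l + 1) → ℕ) → (Fin k → ℕ) → Prop)
    (h : (((Fintype.piFinset (fun _ : Fin k => V)).filter (fun c =>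
        (((Fintype.piFinset (fun _ : Fin (l + 1) => V)).filter (fun a => Function.Injective a ∧
          P a c)).card : ℝ) <
            (proportion l - ε) * (V.card : ℝ) ^ (l + 1))).card : ℝ) ≤ ε * (V.card : ℝ) ^ k) :
    (1 - ε) * (V.card : ℝ) ^ k ≤ companions l k ε V P := by
  have h1 : ∀ c : Fin k → ℕ, {a : Fin (l + 1) → ℕ | (∀ i, a i ∈ V) ∧ Function.Injective a ∧
      P a c}.ncard = ((Fintype.piFinset (fun _ : Fin (l + 1) => V)).filter
        (fun a => Function.Injective a ∧ P a c)).card := by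
    intro c
    rw [← Set.ncard_coe_finset]
    congr 1
    ext a
    rw [mem_coe, mem_filter, Fintype.mem_piFinset]
    exact Iff.rfl
  obtain ⟨Q, hQ⟩ : ∃ Q : Finset (Fin k → ℕ), Q = (Fintype.piFinset (fun _ : Fin k => V)).filter (fun c =>
        ¬ (((Fintype.piFinset (fun _ : Fin (l + 1) => V)).filter (fun a => Function.Injective a ∧
          P a c)).card : ℝ) < (proportion l - ε) * (V.card : ℝ) ^ (l + 1)) := ⟨_, rfl⟩
  have h2 : companions l k ε V P = Q.card := by
    unfold companions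
    rw [← Set.ncard_coe_finset Q]
    congr 1
    ext c
    rw [mem_coe, hQ, mem_filter, Fintype.mem_piFinset, Set.mem_ofPred_eq, h1, not_lt]
  have h3 := card_filter_add_card_filter_not (s := Fintype.piFinset (fun _ : Fin k => V)) (fun c =>
        (((Fintype.piFinset (fun _ : Fin (l + 1) => V)).filter (fun a => Function.Injective a ∧
          P a c)).card : ℝ) < (proportion l - ε) * (V.card : ℝ) ^ (l + 1))
  rw [Fintype.card_piFinset_const, ← hQ] at h3
  rw [h2]
  have h4 : (((Fintype.piFinset (fun _ : Fin k => V)).filter (fun c =>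
        (((Fintype.piFinset (fun _ : Fin (l + 1) => V)).filter (fun a => Function.Injective a ∧
          P a c)).card : ℝ) < (proportion l - ε) * (V.card : ℝ) ^ (l + 1))).card : ℝ) + (Q.card : ℝ) =
      (V.card : ℝ) ^ k := by exact_mod_cast h3
  linarith

/-- **Main theorem.** For all `l, k` and `ε > 0` there are `z`, `n₀`, `B` and `δ > 0` such that for every
`q ≥ 1`: (1) for every finite set `V` of at least `n₀` natural numbers whose `b + v` are prime to `q` and which
misses a residue class modulo every prime `p ≤ z` which does not divide `q`, for all but `ε |V| ^ k` of the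
`k`-tuples `c` of elements of `V` at least `(proportion l - ε) |V| ^ (l + 1)` of the `(l + 1)`-tuples `a` of
distinct elements of `V` have infinitely many `n ≡ b` modulo `q` with all `n + a i` prime and all `n + c j`
primes or products of two primes; (2) if `x` is sufficiently large, this holds uniformly for the
`V ⊆ [0, x / (4 q)]` with `Many` at `x`. -/
theorem result (l k : ℕ) (ε : ℝ) (hε : 0 < ε) : ∃ (z n₀ B : ℕ) (δ : ℝ), 0 < δ ∧ ∀ q : ℕ, 1 ≤ q →
    (∀ (b : ℕ) (V : Finset ℕ), (∀ v ∈ V, Nat.Coprime (b + v) q) →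
      (∀ p : ℕ, p ≤ z → p.Prime → ¬ p ∣ q → ∃ r : ℕ, ∀ v ∈ V, ¬ v ≡ r [MOD p]) → n₀ ≤ V.card →
      (1 - ε) * (V.card : ℝ) ^ k ≤ companions l k ε V (Often q b δ B)) ∧
    ∀ᶠ x : ℕ in atTop, ∀ (b : ℕ) (V : Finset ℕ), (∀ v ∈ V, 4 * q * v ≤ x) →
      (∀ v ∈ V, Nat.Coprime (b + v) q) →
      (∀ p : ℕ, p ≤ z → p.Prime → ¬ p ∣ q → ∃ r : ℕ, ∀ v ∈ V, ¬ v ≡ r [MOD p]) → n₀ ≤ V.card →
      (1 - ε) * (V.card : ℝ) ^ k ≤ companions l k ε V (Many q b δ B x) := by
  classical
  obtain ⟨z, n₀, B, δ, hδ, H⟩ := unif l k ε hε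
  have h2 : ∀ q : ℕ, 1 ≤ q → ∀ᶠ x : ℕ in atTop, ∀ (b : ℕ) (V : Finset ℕ), (∀ v ∈ V, 4 * q * v ≤ x) →
      (∀ v ∈ V, Nat.Coprime (b + v) q) →
      (∀ p : ℕ, p ≤ z → p.Prime → ¬ p ∣ q → ∃ r : ℕ, ∀ v ∈ V, ¬ v ≡ r [MOD p]) → n₀ ≤ V.card →
      (1 - ε) * (V.card : ℝ) ^ k ≤ companions l k ε V (Many q b δ B x) := by
    intro q hq
    filter_upwards [H q hq] with x hx b V h1 h2 h3 h4
    apply companions_ge
    refine le_trans (le_of_eq ?_) (hx b V h1 h2 h3 h4)
    congr!
  refine ⟨z, n₀, B, δ, hδ, fun q hq => ⟨?_, h2 q hq⟩⟩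
  intro b V hV1 hV2 hV3
  -- all the tuples
  have hall : ∀ᶠ x : ℕ in atTop, ∀ a ∈ Fintype.piFinset (fun _ : Fin (l + 1) => V),
      ∀ c ∈ Fintype.piFinset (fun _ : Fin k => V), Many q b δ B x a c → Often q b δ B a c := by
    rw [Filter.eventually_all_finset]
    intro a _
    rw [Filter.eventually_all_finset]
    intro c _
    by_cases h : ∃ᶠ x : ℕ in atTop, Many q b δ B x a c
    · exact Filter.Eventually.of_forall fun x _ => often_of hδ h
    · rw [Filter.not_frequently] at h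
      filter_upwards [h] with x hx h5
      exact absurd h5 hx
  obtain ⟨x, hx1, hx2, hx3⟩ := ((h2 q hq).and (hall.and
    (eventually_ge_atTop (4 * q * ∑ v ∈ V, v)))).exists
  refine (hx1 b V (fun v hv => ?_) hV1 hV2 hV3).trans ?_
  · refine le_trans (Nat.mul_le_mul_left _ ?_) hx3
    exact Finset.single_le_sum (f := fun v : ℕ => v) (fun _ _ => Nat.zero_le _) hv
  · rw [Nat.cast_le]
    unfold companions
    apply Set.ncard_le_ncard
    · rintro c ⟨hc1, hc2⟩
      refine ⟨hc1, hc2.trans ?_⟩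
      rw [Nat.cast_le]
      apply Set.ncard_le_ncard
      · rintro a ⟨ha1, ha2, ha3⟩
        exact ⟨ha1, ha2, hx2 a (Fintype.mem_piFinset.2 ha1) c (Fintype.mem_piFinset.2 hc1) ha3⟩
      · apply (Fintype.piFinset (fun _ : Fin (l + 1) => V)).finite_toSet.subset
        rintro a ⟨ha, -⟩
        rw [mem_coe, Fintype.mem_piFinset]
        exact ha
    · apply (Fintype.piFinset (fun _ : Fin k => V)).finite_toSet.subset
      rintro c ⟨hc, -⟩
      rw [mem_coe, Fintype.mem_piFinset]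
      exact hc

end Pool.Agent.Results.MP_8923e7_nt.TuplesWithCompanions
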